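import Pool.Agent.E8helper46.PD.Odd

/-!
# Real characters in real blocks
-/

set_option autoImplicit false
set_option linter.unusedSectionVars false

open scoped BigOperators Classical

noncomputable section

namespace Pool.Agent.E8helper46.PD

open Pool.Agent.Y63.KR Pool.Agent.Q259.BW Pool.Agent.H254R3.IN Pool.Agent.Q90.WR
open Pool.Agent.Q288.MB

/-- The set `B` of complex valued functions is closed under complex conjugation. -/
def RealSet {G : Type} (B : Set (G → ℂ)) : Prop := ∀ χ ∈ B, (fun g => starRingEnd ℂ (χ g)) ∈ B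

theorem realSet_iff {G : Type} {B : Set (G → ℂ)} : RealSet B ↔ gal cc B = B := by
  constructor
  · intro h
    ext χ
    constructor
    · rintro ⟨ψ, hψ, rfl⟩
      exact h ψ hψ
    · intro hχ
      refine ⟨_, h χ hχ, ?_⟩
      funext g
      exact (Complex.conj_conj (χ g)).symm
  · intro h χ hχ
    have h3 : (fun g => cc (χ g)) ∈ gal cc B := ⟨χ, hχ, rfl⟩
    rw [h] at h3
    exact h3

section blocks

variable {G : Type} [Group G] [Finite G] {p : ℕ} {O : ValuationSubring ℂ} {B : Set (G → ℂ)}

/-- The number of the real valued irreducible characters `θ` of the subgroup `H` of `p`-defect `d`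
with `bl(θ)^G = B`. -/
def kReal (p : ℕ) (O : ValuationSubring ℂ) (d : ℕ) {G : Type} [Group G] (B : Set (G → ℂ))
    (H : Subgroup G) : ℕ :=
  Nat.card {θ : H → ℂ // θ ∈ IndS O B (Subtype.val : H → G) ∧
    (∃ n : ℕ, θ 1 = (n : ℂ) ∧ n.factorization p + d = (Nat.card H).factorization p) ∧
    ∀ g, (θ g).im = 0}

theorem IndS_finite (A : Set (G → ℂ)) (H : Subgroup G) : (IndS O A (Subtype.val : H → G)).Finite := by
  have := Fintype.ofFinite H
  refine Set.Finite.subset (Pool.Agent.Helper884.IC.Irr H).finite_toSet ?_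
  intro θ hθ
  exact Pool.Agent.Helper884.IC.mem_Irr.mpr hθ.1

theorem kReal_mod (hB : IsBlock O B) (hr : RealSet B) (d : ℕ) (H : Subgroup G) :
    anum p d (IndS O B (Subtype.val : H → G)) ≡ kReal p O d B H [MOD 2] := by
  have := Fintype.ofFinite G
  have := Fintype.ofFinite H
  have hfin : Finite {θ : H → ℂ // θ ∈ IndS O B (Subtype.val : H → G) ∧
      ∃ n : ℕ, θ 1 = (n : ℂ) ∧ n.factorization p + d = (Nat.card H).factorization p} := by
    have h1 : Finite (IndS O B (Subtype.val : H → G)) := IndS_finite B H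
    exact Finite.of_injective (fun x => (⟨x.1, x.2.1⟩ : IndS O B (Subtype.val : H → G)))
      (fun x y hxy => Subtype.ext (congrArg (fun z : IndS O B (Subtype.val : H → G) => z.1) hxy))
  have hstep : ∀ θ : H → ℂ, θ ∈ IndS O B (Subtype.val : H → G) →
      (fun g => starRingEnd ℂ (θ g)) ∈ IndS O B (Subtype.val : H → G) := by
    intro θ hθ
    have h1 : (fun g => cc (θ g)) ∈ IndS O (gal cc B) (Subtype.val : H → G) := by
      rw [IndS_gal cc hB]
      exact ⟨θ, hθ, rfl⟩
    rw [realSet_iff.mp hr] at h1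
    exact h1
  let f : {θ : H → ℂ // θ ∈ IndS O B (Subtype.val : H → G) ∧
      ∃ n : ℕ, θ 1 = (n : ℂ) ∧ n.factorization p + d = (Nat.card H).factorization p} →
      {θ : H → ℂ // θ ∈ IndS O B (Subtype.val : H → G) ∧
      ∃ n : ℕ, θ 1 = (n : ℂ) ∧ n.factorization p + d = (Nat.card H).factorization p} :=
    fun x => ⟨fun g => starRingEnd ℂ (x.1 g), hstep x.1 x.2.1, by
      obtain ⟨n, hn, h⟩ := x.2.2
      exact ⟨n, by change starRingEnd ℂ (x.1 1) = _; rw [hn, map_natCast], h⟩⟩
  have hf : ∀ x, f (f x) = x := fun x => Subtype.ext (funext fun g => Complex.conj_conj (x.1 g))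
  have h := invol_mod f hf
  have e : Nat.card {x // f x = x} = kReal p O d B H := by
    unfold kReal
    refine Nat.card_congr
      { toFun := fun x => ⟨x.1.1, x.1.2.1, x.1.2.2, fun g =>
          Complex.conj_eq_iff_im.mp (congrFun (congrArg Subtype.val x.2) g)⟩
        invFun := fun x => ⟨⟨x.1, x.2.1, x.2.2.1⟩,
          Subtype.ext (funext fun g => Complex.conj_eq_iff_im.mpr (x.2.2.2 g))⟩
        left_inv := fun x => rfl
        right_inv := fun x => rfl }
  rw [e] at h
  exact h

/-- The number of classes of pairs `(σ, θ)`, `θ` a real valued irreducible character of `G_σ` of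
`p`-defect `d` with `bl(θ)^G = B`. -/
def TReal (p : ℕ) (O : ValuationSubring ℂ) (d : ℕ) {G : Type} [Group G] (B : Set (G → ℂ)) : ℕ :=
  ∑ᶠ c : Quotient (chainSetoid p G), kReal p O d B (chainStabilizer c.out.1)

theorem TReal_even (hB : IsBlock O B) (hr : RealSet B) (d : ℕ) :
    Even (TReal p O d B) ↔ Even (blkDefT p O d B) := by
  have : Fintype (Quotient (chainSetoid p G)) := Fintype.ofFinite _
  have h : blkDefT p O d B ≡ TReal p O d B [MOD 2] := by
    unfold blkDefT TReal
    rw [finsum_eq_sum_of_fintype, finsum_eq_sum_of_fintype]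
    exact Nat.ModEq.sum fun c _ => kReal_mod hB hr d _
  rw [even_iff_two_dvd, even_iff_two_dvd, ← Nat.modEq_zero_iff_dvd, ← Nat.modEq_zero_iff_dvd]
  exact ⟨fun h' => h.trans h', fun h' => h.symm.trans h'⟩

end blocks

section main

variable {p : ℕ} [hp : Fact p.Prime] {O : ValuationSubring ℂ}

/-- **the three conditions**, for a class of blocks -/
theorem main_tfae (hp2 : p ≠ 2) (hpO : (p : ℂ) ∈ O.nonunits)
    (C : (G : Type) → Group G → Set (G → ℂ) → Prop)
    (h1 : ∀ (G : Type) [i : Group G] (B : Set (G → ℂ)), C G i B → AdmB p O G B)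
    (h2 : ∀ (G : Type) [i : Group G] (B : Set (G → ℂ)), C G i B →
      C (Wr G) inferInstance (WrS B))
    (h3 : ∀ (G : Type) [i : Group G] (B : Set (G → ℂ)) (σ : ℂ ≃+* ℂ), C G i B →
      gal σ B ≠ B → gal σ (gal σ B) = B → C (Wr G) inferInstance (WrM B (gal σ B))) :
    List.TFAE [
      ∀ (G : Type) [i : Group G] (B : Set (G → ℂ)), C G i B → ∀ d, blkDef p O d B = 0,
      ∀ (G : Type) [i : Group G] (B : Set (G → ℂ)), C G i B → RealSet B →
        ∀ d, Even (TReal p O d B),
      ∀ (G : Type) [i : Group G] (B : Set (G → ℂ)), C G i B → Odd (numConj B) →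
        ∀ d, Even (TOdd p O d B)] := by
  tfae_have 1 → 2 := by
    intro h G _ B hB hr d
    have := (h1 G B hB).fin
    rw [TReal_even (h1 G B hB).block hr, blkDef_parity, h G B hB d]
    exact dvd_zero _
  tfae_have 2 → 3 := by
    intro h G _ B hB ho d
    have := (h1 G B hB).fin
    have := Fintype.ofFinite G
    have hb := (h1 G B hB).block
    have hr : RealSet B := real_of_odd hb.irr ho
    rw [TOdd_even hb ho, ← TReal_even hb hr]
    exact h G B hB hr d
  tfae_have 3 → 1 := (main_class hp2 hpO C h1 h2 h3).mpr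
  tfae_finish

end main

end Pool.Agent.E8helper46.PD
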