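import Pool.Agent.Q288.MB.Orb
import Pool.Agent.Q90.WR.Bcl

/-!
# Induced blocks for the block of a wreath product above two different blocks
-/

set_option autoImplicit false
set_option linter.unusedSectionVars false

open scoped BigOperators Classical

noncomputable section

namespace Pool.Agent.E8helper46.PD

open Pool.Agent.Y63.KR Pool.Agent.Q259.BW Pool.Agent.H254R3.IN Pool.Agent.Q90.WR
open Pool.Agent.Q288.MB Polynomial
open Pool.Agent.Helper884.IC (Irr)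

/-- two pairs of functions with the same symmetrised products -/
theorem pair_alg {X R : Type} [Field R] (h2 : (2 : R) ≠ 0) (l₁ l₂ m₁ m₂ : X → R)
    (hs : ∀ a, l₁ a + l₂ a = m₁ a + m₂ a)
    (hp : ∀ a b, l₁ a * l₂ b + l₂ a * l₁ b = m₁ a * m₂ b + m₂ a * m₁ b) :
    (∀ a, l₁ a = m₁ a ∧ l₂ a = m₂ a) ∨ (∀ a, l₁ a = m₂ a ∧ l₂ a = m₁ a) := by
  have hd : ∀ a b, (l₁ a - l₂ a) * (l₁ b - l₂ b) = (m₁ a - m₂ a) * (m₁ b - m₂ b) := by
    intro a b
    have h1 := hs a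
    have h3 := hs b
    have h4 := hp a b
    linear_combination (l₁ b + l₂ b) * h1 + (m₁ a + m₂ a) * h3 - 2 * h4
  by_cases h0 : ∀ a, m₁ a - m₂ a = 0
  · left
    intro a
    have h1 : (l₁ a - l₂ a) * (l₁ a - l₂ a) = 0 := by rw [hd, h0, mul_zero]
    have h3 : l₁ a - l₂ a = 0 := by
      rcases mul_eq_zero.mp h1 with h | h <;> exact h
    have h4 := hs a
    have h5 := h0 a
    constructor
    · apply mul_left_cancel₀ h2
      linear_combination h4 + h3 - h5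
    · apply mul_left_cancel₀ h2
      linear_combination h4 - h3 + h5
  · push Not at h0
    obtain ⟨c, hc⟩ := h0
    have h1 : ((l₁ c - l₂ c) - (m₁ c - m₂ c)) * ((l₁ c - l₂ c) + (m₁ c - m₂ c)) = 0 := by
      linear_combination hd c c
    rcases mul_eq_zero.mp h1 with h | h
    · left
      have h3 : l₁ c - l₂ c = m₁ c - m₂ c := sub_eq_zero.mp h
      intro a
      have h4 : l₁ a - l₂ a = m₁ a - m₂ a := by
        apply mul_left_cancel₀ hc
        rw [← hd c a, h3]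
      have h5 := hs a
      constructor
      · apply mul_left_cancel₀ h2
        linear_combination h5 + h4
      · apply mul_left_cancel₀ h2
        linear_combination h5 - h4
    · right
      have h3 : l₁ c - l₂ c = -(m₁ c - m₂ c) := eq_neg_of_add_eq_zero_left h
      intro a
      have h4 : l₁ a - l₂ a = -(m₁ a - m₂ a) := by
        apply mul_left_cancel₀ hc
        have h6 := hd c a
        rw [h3] at h6
        linear_combination -h6
      have h5 := hs a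
      constructor
      · apply mul_left_cancel₀ h2
        linear_combination h5 + h4
      · apply mul_left_cancel₀ h2
        linear_combination h5 - h4

section blocks

variable {G : Type} [Group G] [Fintype G] {O : ValuationSubring ℂ} {B₁ B₂ : Set (G → ℂ)}
variable {K K' : Type} [Group K] [Fintype K] [Group K'] [Fintype K']

/-- two functions with the right products -/
theorem both_of_prodM (h2 : (2 : ℂ)⁻¹ ∈ O) {lam₁ lam₂ : G → RF O} {l₁ l₂ : G → ℂ}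
    (hc₁ : ∀ a b, IsConj a b → lam₁ a = lam₁ b) (hc₂ : ∀ a b, IsConj a b → lam₂ a = lam₂ b)
    (m1 : ∀ a, l₁ a ∈ O) (m2 : ∀ a, l₂ a ∈ O) (n0 : lam₁ 1 = 1) (n0' : lam₂ 1 = 1)
    (n1 : l₁ 1 = 1) (n2 : l₂ 1 = 1)
    (h : ∀ a b : G, red O (Q259.BW.kap a b * (l₁ a * l₂ b + l₂ a * l₁ b)) =
      LamM lam₁ lam₂ ⟨a, b, false⟩) :
    (∀ a, red O (l₁ a) = lam₁ a ∧ red O (l₂ a) = lam₂ a) ∨
      (∀ a, red O (l₁ a) = lam₂ a ∧ red O (l₂ a) = lam₁ a) := by
  obtain ⟨hh, h2ne⟩ := half_red h2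
  have hka : red O ((2 : ℂ)⁻¹) ≠ 0 := fun h => by rw [h, zero_mul] at hh; exact zero_ne_one hh
  have key : ∀ a b, red O (l₁ a) * red O (l₂ b) + red O (l₂ a) * red O (l₁ b) =
      lam₁ a * lam₂ b + lam₂ a * lam₁ b := by
    intro a b
    have q := h a b
    rw [red_mul (kap_mem h2 _ _) (O.add_mem _ _ (O.mul_mem _ _ (m1 a) (m2 b))
      (O.mul_mem _ _ (m2 a) (m1 b))), red_add (O.mul_mem _ _ (m1 a) (m2 b))
      (O.mul_mem _ _ (m2 a) (m1 b)), red_mul (m1 a) (m2 b), red_mul (m2 a) (m1 b)] at q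
    change _ = (if IsConj a b then lam₁ a * lam₂ a else lam₁ a * lam₂ b + lam₂ a * lam₁ b) at q
    by_cases hab : IsConj a b
    · rw [if_pos hab] at q
      unfold Q259.BW.kap at q
      rw [if_pos hab, one_div] at q
      apply mul_left_cancel₀ hka
      rw [q, ← hc₁ a b hab, ← hc₂ a b hab]
      linear_combination (-(lam₁ a * lam₂ a)) * hh
    · rw [if_neg hab] at q
      unfold Q259.BW.kap at q
      rw [if_neg hab, red_one, one_mul] at q
      exact q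
  refine pair_alg h2ne (fun a => red O (l₁ a)) (fun a => red O (l₂ a)) lam₁ lam₂ (fun a => ?_) key
  have q := key a 1
  rw [n1, n2, n0, n0', red_one, mul_one, mul_one, mul_one, mul_one] at q
  exact q

theorem lam_congr {χ₀ : G → ℂ} (i0 : IsIrr χ₀) {a b : G} (h : IsConj a b) :
    red O (omega χ₀ a) = red O (omega χ₀ b) := by
  rw [i0.omega_congr h]

/-- the central character of the block of the wreath product -/
theorem omega_WrM (hB₁ : IsBlock O B₁) (hB₂ : IsBlock O B₂) (hne : B₁ ≠ B₂)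
    {χ₁ χ₂ : G → ℂ} (h1 : χ₁ ∈ B₁) (h2 : χ₂ ∈ B₂) {χ : Wr G → ℂ} (hχ : χ ∈ WrM B₁ B₂)
    (x : Wr G) :
    red O (omega χ x) = LamM (fun a => red O (omega χ₁ a)) (fun a => red O (omega χ₂ a)) x := by
  have hL₁ : ∀ ψ ∈ B₁, ∀ a, L (MonoidHom.id G) ψ a ∈ O ∧
      red O (L (MonoidHom.id G) ψ a) = red O (omega χ₁ a) := by
    intro ψ hψ a
    rw [← omega_eq_L (hB₁.irr ψ hψ)]
    exact ⟨(hB₁.irr ψ hψ).omega_mem O a, hB₁.red_eq hψ h1 a⟩
  have hL₂ : ∀ ψ ∈ B₂, ∀ a, L (MonoidHom.id G) ψ a ∈ O ∧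
      red O (L (MonoidHom.id G) ψ a) = red O (omega χ₂ a) := by
    intro ψ hψ a
    rw [← omega_eq_L (hB₂.irr ψ hψ)]
    exact ⟨(hB₂.irr ψ hψ).omega_mem O a, hB₂.red_eq hψ h2 a⟩
  have hP := L_wrM (fun ψ hψ => (hB₁.irr ψ hψ).one_ne) (fun ψ hψ => (hB₂.irr ψ hψ).one_ne)
    _ _ hL₁ hL₂ χ hχ x
  rw [omega_eq_L' (WrM_irr hB₁.irr hB₂.irr (block_disjoint hB₁ hB₂ hne) χ hχ)]
  exact hP.2

/-- different blocks have different central characters -/
theorem lam_ne (hB₁ : IsBlock O B₁) (hB₂ : IsBlock O B₂) (hne : B₁ ≠ B₂)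
    {χ₁ χ₂ : G → ℂ} (h1 : χ₁ ∈ B₁) (h2 : χ₂ ∈ B₂) :
    ¬ ∀ a, red O (omega χ₁ a) = red O (omega χ₂ a) := by
  intro h
  obtain ⟨x, hx⟩ := hB₁.exists_ne h1 (hB₂.irr _ h2)
    (fun h => Set.disjoint_left.mp (block_disjoint hB₁ hB₂ hne) h h2)
  exact hx (h x)

theorem IndS_disj (hB₁ : IsBlock O B₁) (hB₂ : IsBlock O B₂) (hne : B₁ ≠ B₂) (π : K → G) :
    Disjoint (IndS O B₁ π) (IndS O B₂ π) := by
  obtain ⟨χ₁, t1⟩ := hB₁.nonempty
  obtain ⟨χ₂, t2⟩ := hB₂.nonempty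
  rw [Set.disjoint_left]
  intro θ h1 h2
  rw [mem_IndS hB₁ t1] at h1
  rw [mem_IndS hB₂ t2] at h2
  exact lam_ne hB₁ hB₂ hne t1 t2 fun a => by rw [← (h1.2 a).2, (h2.2 a).2]

/-- **the product of two subgroups** -/
theorem IndS_prodM (h2 : (2 : ℂ)⁻¹ ∈ O) (hB₁ : IsBlock O B₁) (hB₂ : IsBlock O B₂)
    (hne : B₁ ≠ B₂) (π : K →* G) (π' : K' →* G)
    (hπ : Function.Injective π) (hπ' : Function.Injective π') :
    IndS O (WrM B₁ B₂) (pmap π π') =
      bxS (IndS O B₁ π) (IndS O B₂ π') ∪ bxS (IndS O B₂ π) (IndS O B₁ π') := by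
  obtain ⟨χ₁, t1⟩ := hB₁.nonempty
  obtain ⟨χ₂, t2⟩ := hB₂.nonempty
  have hW := wrM_block hB₁ hB₂ hne
  have hX0 : ind2 χ₁ χ₂ ∈ WrM B₁ B₂ := ⟨χ₁, t1, χ₂, t2, rfl⟩
  have i1 := hB₁.irr χ₁ t1
  have i2 := hB₂.irr χ₂ t2
  ext χ
  rw [mem_IndS hW hX0]
  simp only [omega_WrM hB₁ hB₂ hne t1 t2 hX0]
  constructor
  · rintro ⟨h1, h3⟩
    obtain ⟨θ, ψ, j1, j2, rfl⟩ := box_cover h1
    have n1 : θ 1 ≠ 0 := IsIrr.one_ne j1
    have n2 : ψ 1 ≠ 0 := IsIrr.one_ne j2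
    have hb := both_of_prodM h2 (lam₁ := fun a => red O (omega χ₁ a))
      (lam₂ := fun a => red O (omega χ₂ a)) (l₁ := L π θ) (l₂ := L π' ψ)
      (fun a b h => lam_congr i1 h) (fun a b h => lam_congr i2 h) (L_mem j1 O) (L_mem j2 O)
      (by rw [omega_one i1, red_one]) (by rw [omega_one i2, red_one]) (L_at_one hπ n1)
      (L_at_one hπ' n2) fun a b => by
        have h4 := (h3 ⟨a, b, false⟩).2
        rw [L_box_base n1 n2] at h4
        exact h4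
    rcases hb with hb | hb
    · exact Or.inl ⟨θ, (mem_IndS hB₁ t1 _ _).mpr ⟨j1, fun a => ⟨L_mem j1 O a, (hb a).1⟩⟩, ψ,
        (mem_IndS hB₂ t2 _ _).mpr ⟨j2, fun a => ⟨L_mem j2 O a, (hb a).2⟩⟩, rfl⟩
    · exact Or.inr ⟨θ, (mem_IndS hB₂ t2 _ _).mpr ⟨j1, fun a => ⟨L_mem j1 O a, (hb a).1⟩⟩, ψ,
        (mem_IndS hB₁ t1 _ _).mpr ⟨j2, fun a => ⟨L_mem j2 O a, (hb a).2⟩⟩, rfl⟩
  · have key : ∀ (l l' : G → ℂ), (∀ a, l a ∈ O) → (∀ a, l' a ∈ O) →
        (∀ a b, IsConj a b → l a = l b) → (∀ a b, IsConj a b → l' a = l' b) → ∀ a b : G,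
        Q259.BW.kap a b * (l a * l' b + l' a * l b) ∈ O ∧
        red O (Q259.BW.kap a b * (l a * l' b + l' a * l b)) =
          if IsConj a b then red O (l a) * red O (l' a) else
            red O (l a) * red O (l' b) + red O (l' a) * red O (l b) := by
      intro l l' e1 e2 c1 c2 a b
      have q1 := O.mul_mem _ _ (e1 a) (e2 b)
      have q2 := O.mul_mem _ _ (e2 a) (e1 b)
      refine ⟨O.mul_mem _ _ (kap_mem h2 _ _) (O.add_mem _ _ q1 q2), ?_⟩
      by_cases hab : IsConj a b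
      · rw [if_pos hab]
        have e : Q259.BW.kap a b * (l a * l' b + l' a * l b) = l a * l' a := by
          unfold Q259.BW.kap
          rw [if_pos hab, ← c1 a b hab, ← c2 a b hab]
          ring
        rw [e, red_mul (e1 a) (e2 a)]
      · rw [if_neg hab]
        unfold Q259.BW.kap
        rw [if_neg hab, one_mul, red_add q1 q2, red_mul (e1 a) (e2 b), red_mul (e2 a) (e1 b)]
    rintro (⟨θ, h1, ψ, h3, rfl⟩ | ⟨θ, h1, ψ, h3, rfl⟩)
    · rw [mem_IndS hB₁ t1] at h1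
      rw [mem_IndS hB₂ t2] at h3
      refine ⟨box_irr h1.1 h3.1, ?_⟩
      rintro ⟨a, b, s⟩
      cases s
      · rw [L_box_base (IsIrr.one_ne h1.1) (IsIrr.one_ne h3.1)]
        have k := key (L π θ) (L π' ψ) (fun a => (h1.2 a).1) (fun a => (h3.2 a).1)
          (fun a b h => L_congr h) (fun a b h => L_congr h) a b
        refine ⟨k.1, k.2.trans ?_⟩
        simp only [(h1.2 _).2, (h3.2 _).2]
        rfl
      · rw [L_box_true]
        exact ⟨O.zero_mem, red_zero⟩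
    · rw [mem_IndS hB₂ t2] at h1
      rw [mem_IndS hB₁ t1] at h3
      refine ⟨box_irr h1.1 h3.1, ?_⟩
      rintro ⟨a, b, s⟩
      cases s
      · rw [L_box_base (IsIrr.one_ne h1.1) (IsIrr.one_ne h3.1)]
        have k := key (L π θ) (L π' ψ) (fun a => (h1.2 a).1) (fun a => (h3.2 a).1)
          (fun a b h => L_congr h) (fun a b h => L_congr h) a b
        refine ⟨k.1, k.2.trans ?_⟩
        simp only [(h1.2 _).2, (h3.2 _).2]
        change _ = (if IsConj a b then red O (omega χ₁ a) * red O (omega χ₂ a) else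
          red O (omega χ₁ a) * red O (omega χ₂ b) + red O (omega χ₂ a) * red O (omega χ₁ b))
        split_ifs
        · exact mul_comm _ _
        · exact add_comm _ _
      · rw [L_box_true]
        exact ⟨O.zero_mem, red_zero⟩

/-- **the wreath product of a subgroup** -/
theorem IndS_wrM (h2 : (2 : ℂ)⁻¹ ∈ O) (hB₁ : IsBlock O B₁) (hB₂ : IsBlock O B₂)
    (hne : B₁ ≠ B₂) (π : K →* G) (hπ : Function.Injective π) :
    IndS O (WrM B₁ B₂) (wmap π) = WrM (IndS O B₁ π) (IndS O B₂ π) := by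
  obtain ⟨χ₁, t1⟩ := hB₁.nonempty
  obtain ⟨χ₂, t2⟩ := hB₂.nonempty
  have hW := wrM_block hB₁ hB₂ hne
  have hX0 : ind2 χ₁ χ₂ ∈ WrM B₁ B₂ := ⟨χ₁, t1, χ₂, t2, rfl⟩
  have i1 := hB₁.irr χ₁ t1
  have i2 := hB₂.irr χ₂ t2
  ext χ
  rw [mem_IndS hW hX0]
  simp only [omega_WrM hB₁ hB₂ hne t1 t2 hX0]
  constructor
  · rintro ⟨h1, h3⟩
    have key : ∀ θ ψ : K → ℂ, IsIrr θ → IsIrr ψ → (∀ a b : G,
        L (wmap π) χ ⟨a, b, false⟩ = Q259.BW.kap a b * (L π θ a * L π ψ b + L π ψ a * L π θ b)) →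
        (θ ∈ IndS O B₁ π ∧ ψ ∈ IndS O B₂ π) ∨ (θ ∈ IndS O B₂ π ∧ ψ ∈ IndS O B₁ π) := by
      intro θ ψ j1 j2 he
      have hb := both_of_prodM h2 (lam₁ := fun a => red O (omega χ₁ a))
        (lam₂ := fun a => red O (omega χ₂ a)) (l₁ := L π θ) (l₂ := L π ψ)
        (fun a b h => lam_congr i1 h) (fun a b h => lam_congr i2 h) (L_mem j1 O) (L_mem j2 O)
        (by rw [omega_one i1, red_one]) (by rw [omega_one i2, red_one])
        (L_at_one hπ (IsIrr.one_ne j1)) (L_at_one hπ (IsIrr.one_ne j2)) fun a b => by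
          have h4 := (h3 ⟨a, b, false⟩).2
          rw [he] at h4
          exact h4
      rcases hb with hb | hb
      · exact Or.inl ⟨(mem_IndS hB₁ t1 _ _).mpr ⟨j1, fun a => ⟨L_mem j1 O a, (hb a).1⟩⟩,
          (mem_IndS hB₂ t2 _ _).mpr ⟨j2, fun a => ⟨L_mem j2 O a, (hb a).2⟩⟩⟩
      · exact Or.inr ⟨(mem_IndS hB₂ t2 _ _).mpr ⟨j1, fun a => ⟨L_mem j1 O a, (hb a).1⟩⟩,
          (mem_IndS hB₁ t1 _ _).mpr ⟨j2, fun a => ⟨L_mem j2 O a, (hb a).2⟩⟩⟩
    have hdis := IndS_disj hB₁ hB₂ hne (π : K → G)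
    rcases cover h1 with ⟨θ₁, θ₂, j1, j2, hne', rfl⟩ | ⟨θ, j1, rfl⟩ | ⟨θ, j1, rfl⟩
    · rcases key θ₁ θ₂ j1 j2 fun a b => L_ind_base (IsIrr.one_ne j1) (IsIrr.one_ne j2) a b with
        h | h
      · exact ⟨θ₁, h.1, θ₂, h.2, rfl⟩
      · exact ⟨θ₂, h.2, θ₁, h.1, ind2_comm _ _⟩
    · rcases key θ θ j1 j1 fun a b => L_ext_base (IsIrr.one_ne j1) 1 a b with h | h
      · exact absurd h.2 (Set.disjoint_left.mp hdis h.1)
      · exact absurd h.1 (Set.disjoint_left.mp hdis h.2)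
    · rcases key θ θ j1 j1 fun a b => L_ext_base (IsIrr.one_ne j1) (-1) a b with h | h
      · exact absurd h.2 (Set.disjoint_left.mp hdis h.1)
      · exact absurd h.1 (Set.disjoint_left.mp hdis h.2)
  · intro h
    refine ⟨WrM_irr IndS_irr IndS_irr (IndS_disj hB₁ hB₂ hne _) χ h, ?_⟩
    exact L_wrM (fun ψ hψ => IsIrr.one_ne (IndS_irr ψ hψ))
      (fun ψ hψ => IsIrr.one_ne (IndS_irr ψ hψ)) (fun a => red O (omega χ₁ a))
      (fun a => red O (omega χ₂ a)) (fun ψ hψ a => ((mem_IndS hB₁ t1 _ _).mp hψ).2 a)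
      (fun ψ hψ a => ((mem_IndS hB₂ t2 _ _).mp hψ).2 a) χ h

end blocks

/-! ### generating functions -/

section poly

variable {p : ℕ}

theorem apoly_WrM [hp : Fact p.Prime] (hp2 : p ≠ 2) {H : Type} [Group H] [Finite H]
    {A₁ A₂ : Set (H → ℂ)} (h1 : ∀ θ ∈ A₁, IsIrr θ) (h2 : ∀ θ ∈ A₂, IsIrr θ)
    (hd : Disjoint A₁ A₂) : apoly p (WrM A₁ A₂) = apoly p A₁ * apoly p A₂ := by
  have := Fintype.ofFinite H
  rw [apoly_sum h1, apoly_sum h2, apoly_sum (WrM_irr h1 h2 hd), Finset.sum_mul_sum,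
    ← Finset.sum_product']
  symm
  refine Finset.sum_bij (fun t _ => ind2 t.1 t.2) ?_ ?_ ?_ ?_
  · intro t ht
    simp only [Finset.mem_filter, Finset.mem_product, Helper884.IC.mem_Irr] at ht ⊢
    exact ⟨WrM_irr h1 h2 hd _ ⟨t.1, ht.1.2, t.2, ht.2.2, rfl⟩, t.1, ht.1.2, t.2, ht.2.2, rfl⟩
  · intro t ht u hu h
    simp only [Finset.mem_filter, Finset.mem_product, Helper884.IC.mem_Irr] at ht hu
    have hne : t.1 ≠ t.2 := fun h => Set.disjoint_left.mp hd ht.1.2 (h ▸ ht.2.2)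
    rcases ind2_inj ht.1.1 ht.2.1 hu.1.1 hu.2.1 hne h with ⟨e1, e2⟩ | ⟨e1, e2⟩
    · exact Prod.ext e1 e2
    · exact absurd (e1 ▸ hu.2.2) (Set.disjoint_left.mp hd ht.1.2)
  · intro χ hχ
    simp only [Finset.mem_filter, Helper884.IC.mem_Irr] at hχ
    obtain ⟨-, θ₁, t1, θ₂, t2, rfl⟩ := hχ
    refine ⟨(θ₁, θ₂), ?_, rfl⟩
    simp only [Finset.mem_filter, Finset.mem_product, Helper884.IC.mem_Irr]
    exact ⟨⟨h1 _ t1, t1⟩, h2 _ t2, t2⟩
  · intro t ht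
    simp only [Finset.mem_filter, Finset.mem_product, Helper884.IC.mem_Irr] at ht
    rw [dfn_ind2 hp2 ht.1.1 ht.2.1, pow_add]

theorem apoly_union {K : Type} [Group K] [Finite K] {A A' : Set (K → ℂ)}
    (h1 : ∀ θ ∈ A, IsIrr θ) (h2 : ∀ θ ∈ A', IsIrr θ) (hd : Disjoint A A') :
    apoly p (A ∪ A') = apoly p A + apoly p A' := by
  have := Fintype.ofFinite K
  rw [apoly_sum h1, apoly_sum h2, apoly_sum (A := A ∪ A') (fun θ h => h.elim (h1 θ) (h2 θ)),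
    ← Finset.sum_union]
  · refine Finset.sum_congr ?_ fun _ _ => rfl
    ext χ
    simp only [Finset.mem_filter, Finset.mem_union, Set.mem_union]
    tauto
  · rw [Finset.disjoint_left]
    intro χ h3 h4
    rw [Finset.mem_filter] at h3 h4
    exact Set.disjoint_left.mp hd h3.2 h4.2

theorem bxS_disj {H K : Type} [Group H] [Group K] [Finite H] [Finite K] {A₁ A₂ : Set (H → ℂ)}
    {A₁' A₂' : Set (K → ℂ)} (h1 : ∀ θ ∈ A₁, IsIrr θ) (h2 : ∀ θ ∈ A₂, IsIrr θ)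
    (h1' : ∀ θ ∈ A₁', IsIrr θ) (h2' : ∀ θ ∈ A₂', IsIrr θ)
    (hd : Disjoint A₁ A₂) : Disjoint (bxS A₁ A₂') (bxS A₂ A₁') := by
  have := Fintype.ofFinite H
  have := Fintype.ofFinite K
  rw [Set.disjoint_left]
  rintro χ ⟨θ, t1, ψ, t2, rfl⟩ ⟨θ', t3, ψ', t4, h⟩
  obtain ⟨e1, -⟩ := box_inj (h1 _ t1) (h2' _ t2) (h2 _ t3) (h1' _ t4) h
  exact Set.disjoint_left.mp hd t1 (e1 ▸ t3)

end poly

end Pool.Agent.E8helper46.PD
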