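import Pool.Agent.E8helper46.PD.Rec

/-!
# Characters with an odd number of Galois conjugates
-/

set_option autoImplicit false
set_option linter.unusedSectionVars false

open scoped BigOperators Classical

noncomputable section

namespace Pool.Agent.E8helper46.PD

open Pool.Agent.Y63.KR Pool.Agent.Q259.BW Pool.Agent.H254R3.IN Pool.Agent.Q90.WR
open Pool.Agent.Q288.MB

/-- Modulo two, the cardinality of a finite set with an action of a group is the number of the
elements in orbits of odd length. -/
theorem card_mod_orbits (Γ X : Type) [Group Γ] [MulAction Γ X] [Finite X] :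
    Nat.card X ≡ Nat.card {x : X // Odd (Nat.card (MulAction.orbit Γ x))} [MOD 2] := by
  have := Fintype.ofFinite X
  have : Fintype (MulAction.orbitRel.Quotient Γ X) := Fintype.ofFinite _
  let f : X → MulAction.orbitRel.Quotient Γ X := Quotient.mk _
  have h1 : Nat.card X = ∑ ω : MulAction.orbitRel.Quotient Γ X,
      (Finset.univ.filter (fun x : X => f x = ω)).card := by
    rw [Nat.card_eq_fintype_card, ← Finset.card_univ]
    exact Finset.card_eq_sum_card_fiberwise fun x _ => Finset.mem_coe.mpr (Finset.mem_univ _)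
  have h2 : Nat.card {x : X // Odd (Nat.card (MulAction.orbit Γ x))} =
      ∑ ω : MulAction.orbitRel.Quotient Γ X,
      ((Finset.univ.filter (fun x : X => Odd (Nat.card (MulAction.orbit Γ x)))).filter
        (fun x : X => f x = ω)).card := by
    rw [Nat.card_eq_fintype_card, Fintype.card_subtype]
    exact Finset.card_eq_sum_card_fiberwise fun x _ => Finset.mem_coe.mpr (Finset.mem_univ _)
  rw [h1, h2]
  refine Nat.ModEq.sum fun ω _ => ?_
  obtain ⟨x₀, rfl⟩ : ∃ x₀, f x₀ = ω := Quotient.exists_rep ω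
  have h3 : ∀ x : X, f x = f x₀ ↔ x ∈ MulAction.orbit Γ x₀ := by
    intro x
    rw [← MulAction.orbitRel_apply]
    exact Quotient.eq
  have h4 : (Finset.univ.filter (fun x : X => f x = f x₀)).card =
      Nat.card (MulAction.orbit Γ x₀) := by
    rw [Nat.card_eq_fintype_card, ← Set.toFinset_card]
    congr 1
    ext x
    rw [Finset.mem_filter, Set.mem_toFinset, h3]
    simp
  by_cases hodd : Odd (Nat.card (MulAction.orbit Γ x₀))
  · have h5 : (Finset.univ.filter (fun x : X => Odd (Nat.card (MulAction.orbit Γ x)))).filter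
        (fun x : X => f x = f x₀) = Finset.univ.filter (fun x : X => f x = f x₀) := by
      ext x
      simp only [Finset.mem_filter, Finset.mem_univ, true_and, and_iff_right_iff_imp]
      intro h
      rw [MulAction.orbit_eq_iff.mpr ((h3 x).mp h)]
      exact hodd
    rw [h5]
  · have h5 : (Finset.univ.filter (fun x : X => Odd (Nat.card (MulAction.orbit Γ x)))).filter
        (fun x : X => f x = f x₀) = ∅ := by
      ext x
      simp only [Finset.mem_filter, Finset.mem_univ, true_and, Finset.notMem_empty, iff_false,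
        not_and]
      intro h h'
      rw [MulAction.orbit_eq_iff.mpr ((h3 x).mp h')] at h
      exact hodd h
    rw [h5, h4, Finset.card_empty]
    rw [Nat.not_odd_iff_even] at hodd
    exact (Nat.modEq_zero_iff_dvd).mpr hodd.two_dvd

/-- The number of Galois conjugates `τ ∘ θ`, `τ` a field automorphism of `ℂ`, of a complex valued
function `θ`. -/
def galNum {K : Type} (θ : K → ℂ) : ℕ := {ψ : K → ℂ | ∃ τ : ℂ ≃+* ℂ, ψ = fun g => τ (θ g)}.ncard

/-- the action on functions -/
def actF (K : Type) : MulAction (ℂ ≃+* ℂ) (K → ℂ) where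
  smul τ θ := fun g => τ (θ g)
  one_smul _ := rfl
  mul_smul _ _ _ := rfl

/-- the action on sets of functions -/
def actS (K : Type) : MulAction (ℂ ≃+* ℂ) (Set (K → ℂ)) where
  smul τ A := gal τ A
  one_smul A := gal_refl A
  mul_smul σ τ A := gal_mul σ τ A

/-- the stabiliser of a function -/
def stF {K : Type} (θ : K → ℂ) : Subgroup (ℂ ≃+* ℂ) := @MulAction.stabilizer _ _ _ (actF K) θ

/-- the stabiliser of a set of functions -/
def stS {K : Type} (A : Set (K → ℂ)) : Subgroup (ℂ ≃+* ℂ) := @MulAction.stabilizer _ _ _ (actS K) A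

theorem mem_stF {K : Type} {θ : K → ℂ} {τ : ℂ ≃+* ℂ} : τ ∈ stF θ ↔ (fun g => τ (θ g)) = θ :=
  Iff.rfl

theorem mem_stS {K : Type} {A : Set (K → ℂ)} {τ : ℂ ≃+* ℂ} : τ ∈ stS A ↔ gal τ A = A := Iff.rfl

theorem galNum_index {K : Type} (θ : K → ℂ) : galNum θ = (stF θ).index := by
  unfold galNum stF
  rw [@MulAction.index_stabilizer _ _ _ (actF K)]
  congr 1
  ext ψ
  constructor
  · rintro ⟨τ, rfl⟩
    exact ⟨τ, rfl⟩
  · rintro ⟨τ, rfl⟩
    exact ⟨τ, rfl⟩

theorem numConj_index {K : Type} (A : Set (K → ℂ)) : numConj A = (stS A).index := by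
  unfold numConj stS
  rw [@MulAction.index_stabilizer _ _ _ (actS K)]
  congr 1
  ext ψ
  constructor
  · rintro ⟨τ, rfl⟩
    exact ⟨τ, rfl⟩
  · rintro ⟨τ, rfl⟩
    exact ⟨τ, rfl⟩

/-- parity for a finite set of functions stable under a group of automorphisms of odd index which
contains the stabilisers -/
theorem parity_functions {K : Type} (A : Set (K → ℂ)) [Finite A] (Δ : Subgroup (ℂ ≃+* ℂ))
    (hΔ : Odd Δ.index) (hst : ∀ τ ∈ Δ, ∀ θ ∈ A, (fun g => τ (θ g)) ∈ A)
    (hle : ∀ θ ∈ A, stF θ ≤ Δ) :
    Nat.card A ≡ Nat.card {θ : K → ℂ // θ ∈ A ∧ Odd (galNum θ)} [MOD 2] := by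
  letI : MulAction Δ A :=
    { smul := fun τ θ => ⟨fun g => τ.1 (θ.1 g), hst τ.1 τ.2 θ.1 θ.2⟩
      one_smul := fun _ => rfl
      mul_smul := fun _ _ _ => rfl }
  have h1 := card_mod_orbits Δ A
  have h2 : ∀ θ : A, Odd (Nat.card (MulAction.orbit Δ θ)) ↔ Odd (galNum θ.1) := by
    intro θ
    have e1 : Nat.card (MulAction.orbit Δ θ) = (stF θ.1).relIndex Δ := by
      have e2 := MulAction.index_stabilizer Δ θ
      have e3 : MulAction.stabilizer Δ θ = (stF θ.1).subgroupOf Δ := by
        ext τ
        rw [MulAction.mem_stabilizer_iff, Subgroup.mem_subgroupOf, mem_stF]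
        constructor
        · intro h
          exact congrArg Subtype.val h
        · intro h
          exact Subtype.ext h
      rw [e3] at e2
      change Nat.card (MulAction.orbit Δ θ) = ((stF θ.1).subgroupOf Δ).index
      rw [e2]
      rfl
    rw [e1, galNum_index, ← Subgroup.relIndex_mul_index (hle θ.1 θ.2), Nat.odd_mul]
    exact ⟨fun h => ⟨h, hΔ⟩, fun h => h.1⟩
  have h3 : Nat.card {x : A // Odd (Nat.card (MulAction.orbit Δ x))} =
      Nat.card {θ : K → ℂ // θ ∈ A ∧ Odd (galNum θ)} := by
    refine Nat.card_congr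
      { toFun := fun x => ⟨x.1.1, x.1.2, (h2 x.1).mp x.2⟩
        invFun := fun x => ⟨⟨x.1, x.2.1⟩, (h2 ⟨x.1, x.2.1⟩).mpr x.2.2⟩
        left_inv := fun x => rfl
        right_inv := fun x => rfl }
  rw [← h3]
  exact h1

/-- a character with an odd number of Galois conjugates is real -/
theorem real_of_galNum {K : Type} [Group K] [Finite K] {θ : K → ℂ} (hθ : IsIrr θ)
    (h : Odd (galNum θ)) (g : K) : (θ g).im = 0 := by
  have := Fintype.ofFinite K
  have h1 : numConj ({θ} : Set (K → ℂ)) = galNum θ := by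
    unfold numConj galNum
    have e : {C : Set (K → ℂ) | ∃ σ : ℂ ≃+* ℂ, C = gal σ {θ}} =
        (fun ψ : K → ℂ => ({ψ} : Set (K → ℂ))) ''
          {ψ : K → ℂ | ∃ τ : ℂ ≃+* ℂ, ψ = fun g => τ (θ g)} := by
      ext C
      constructor
      · rintro ⟨σ, rfl⟩
        refine ⟨_, ⟨σ, rfl⟩, ?_⟩
        ext χ
        constructor
        · intro h
          exact ⟨θ, rfl, h⟩
        · rintro ⟨ψ, hψ, rfl⟩
          rw [Set.mem_singleton_iff.mp hψ]
          exact rfl
      · rintro ⟨_, ⟨σ, rfl⟩, rfl⟩
        refine ⟨σ, ?_⟩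
        ext χ
        constructor
        · intro h
          exact ⟨θ, rfl, h⟩
        · rintro ⟨ψ, hψ, rfl⟩
          rw [Set.mem_singleton_iff.mp hψ]
          exact rfl
    rw [e]
    exact Set.ncard_image_of_injective _ Set.singleton_injective
  rw [← h1] at h
  have h2 := real_of_odd (B := ({θ} : Set (K → ℂ)))
    (fun ψ hψ => by rw [Set.mem_singleton_iff.mp hψ]; exact hθ) h θ rfl
  have h3 : (fun g => starRingEnd ℂ (θ g)) = θ := h2
  exact Complex.conj_eq_iff_im.mp (congrFun h3 g)

section blocks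

variable {G : Type} [Group G] [Finite G] {p : ℕ} {O : ValuationSubring ℂ} {B : Set (G → ℂ)}

/-- The number of the irreducible characters `θ` of the subgroup `H` of `p`-defect `d` with
`bl(θ)^G = B` and with an odd number of Galois conjugates. -/
def kOdd (p : ℕ) (O : ValuationSubring ℂ) (d : ℕ) {G : Type} [Group G] (B : Set (G → ℂ))
    (H : Subgroup G) : ℕ :=
  Nat.card {θ : H → ℂ // θ ∈ IndS O B (Subtype.val : H → G) ∧
    (∃ n : ℕ, θ 1 = (n : ℂ) ∧ n.factorization p + d = (Nat.card H).factorization p) ∧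
    Odd (galNum θ)}

theorem IndS_ne (hB : IsBlock O B) {B' : Set (G → ℂ)} (hB' : IsBlock O B') {H : Subgroup G}
    {θ : H → ℂ} (h : θ ∈ IndS O B (Subtype.val : H → G))
    (h' : θ ∈ IndS O B' (Subtype.val : H → G)) : B = B' := by
  have := Fintype.ofFinite G
  have := Fintype.ofFinite H
  by_contra hne
  exact Set.disjoint_left.mp (IndS_disj hB hB' hne _) h h'

theorem kOdd_mod (hB : IsBlock O B) (ho : Odd (numConj B)) (d : ℕ) (H : Subgroup G) :
    anum p d (IndS O B (Subtype.val : H → G)) ≡ kOdd p O d B H [MOD 2] := by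
  have := Fintype.ofFinite G
  have := Fintype.ofFinite H
  let A : Set (H → ℂ) := {θ | θ ∈ IndS O B (Subtype.val : H → G) ∧
    ∃ n : ℕ, θ 1 = (n : ℂ) ∧ n.factorization p + d = (Nat.card H).factorization p}
  have hfin : Finite A := by
    refine Set.Finite.subset (Pool.Agent.Helper884.IC.Irr H).finite_toSet ?_
    intro θ hθ
    exact Pool.Agent.Helper884.IC.mem_Irr.mpr hθ.1.1
  rw [numConj_index] at ho
  have h := parity_functions A (stS B) ho ?_ ?_
  · have e1 : Nat.card A = anum p d (IndS O B (Subtype.val : H → G)) := rfl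
    have e2 : Nat.card {θ : H → ℂ // θ ∈ A ∧ Odd (galNum θ)} = kOdd p O d B H := by
      unfold kOdd
      refine Nat.card_congr (Equiv.subtypeEquivRight fun θ => ?_)
      exact and_assoc
    rw [← e1, ← e2]
    exact h
  · rintro τ hτ θ ⟨h1, n, hn, h2⟩
    rw [mem_stS] at hτ
    refine ⟨?_, n, by change τ (θ 1) = _; rw [hn, map_natCast], h2⟩
    rw [← hτ, IndS_gal τ hB]
    exact ⟨θ, h1, rfl⟩
  · rintro θ ⟨h1, -⟩ τ hτ
    rw [mem_stF] at hτ
    rw [mem_stS]
    have h2 : θ ∈ IndS O (gal τ B) (Subtype.val : H → G) := by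
      rw [IndS_gal τ hB]
      exact ⟨θ, h1, hτ.symm⟩
    exact IndS_ne (gal_block τ hB) hB h2 h1

/-- The number of classes of pairs `(σ, θ)`, `θ` an irreducible character of `G_σ` of `p`-defect `d`
with `bl(θ)^G = B` and with an odd number of Galois conjugates. -/
def TOdd (p : ℕ) (O : ValuationSubring ℂ) (d : ℕ) {G : Type} [Group G] (B : Set (G → ℂ)) : ℕ :=
  ∑ᶠ c : Quotient (chainSetoid p G), kOdd p O d B (chainStabilizer c.out.1)

theorem TOdd_even (hB : IsBlock O B) (ho : Odd (numConj B)) (d : ℕ) :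
    Even (TOdd p O d B) ↔ Even (blkDefT p O d B) := by
  have : Fintype (Quotient (chainSetoid p G)) := Fintype.ofFinite _
  have h : blkDefT p O d B ≡ TOdd p O d B [MOD 2] := by
    unfold blkDefT TOdd
    rw [finsum_eq_sum_of_fintype, finsum_eq_sum_of_fintype]
    exact Nat.ModEq.sum fun c _ => kOdd_mod hB ho d _
  rw [even_iff_two_dvd, even_iff_two_dvd, ← Nat.modEq_zero_iff_dvd, ← Nat.modEq_zero_iff_dvd]
  exact ⟨fun h' => h.trans h', fun h' => h.symm.trans h'⟩

end blocks

section main

variable {p : ℕ} [hp : Fact p.Prime] {O : ValuationSubring ℂ}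

theorem AdmB.mix (hp2 : p ≠ 2) (hpO : (p : ℂ) ∈ O.nonunits) {G : Type} [Group G]
    {B : Set (G → ℂ)} (h : AdmB p O G B) {σ : ℂ ≃+* ℂ} (hσ : gal σ B ≠ B) :
    AdmB p O (Wr G) (WrM B (gal σ B)) := by
  have := h.fin
  have := Fintype.ofFinite G
  obtain ⟨D, hD, hne⟩ := h.defect
  refine ⟨inferInstance, Op_wr hp2 h.core, wrM_block h.block (gal_block σ h.block) (Ne.symm hσ),
    dbl D, wrM_defect hpO h.block (gal_block σ h.block) (Ne.symm hσ) hD
      (gal_defect σ h.block.irr hD), ?_⟩
  intro h1
  apply hne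
  rw [Subgroup.eq_bot_iff_forall]
  intro x hx
  have h2 : (⟨x, x, false⟩ : Wr G) ∈ dbl D := by
    rw [mem_dbl]
    exact ⟨rfl, hx, hx⟩
  rw [h1, Subgroup.mem_bot] at h2
  exact congrArg Wr.a h2

theorem numConj_WrSN {G : Type} [Group G] [Finite G] {B : Set (G → ℂ)}
    (hp2 : p ≠ 2) (hpO : (p : ℂ) ∈ O.nonunits) (hB : AdmB p O G B) (j : ℕ) :
    numConj (WrSN j B) = numConj B := by
  revert G
  induction j with
  | zero => exact fun {G} _ _ B _ => rfl
  | succ j ih =>
    intro G _ _ B hB
    have := Fintype.ofFinite G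
    have h1 := ih (G := Wr G) (B := WrS B) (hB.wr hp2 hpO)
    have h2 := numConj_WrS hB.block.irr
    rw [← h2, ← h1]
    rfl

/-- **the two reductions together**, for a class of blocks -/
theorem main_class (hp2 : p ≠ 2) (hpO : (p : ℂ) ∈ O.nonunits)
    (C : (G : Type) → Group G → Set (G → ℂ) → Prop)
    (h1 : ∀ (G : Type) [i : Group G] (B : Set (G → ℂ)), C G i B → AdmB p O G B)
    (h2 : ∀ (G : Type) [i : Group G] (B : Set (G → ℂ)), C G i B →
      C (Wr G) inferInstance (WrS B))
    (h3 : ∀ (G : Type) [i : Group G] (B : Set (G → ℂ)) (σ : ℂ ≃+* ℂ), C G i B →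
      gal σ B ≠ B → gal σ (gal σ B) = B → C (Wr G) inferInstance (WrM B (gal σ B))) :
    (∀ (G : Type) [i : Group G] (B : Set (G → ℂ)), C G i B → ∀ d, blkDef p O d B = 0) ↔
      ∀ (G : Type) [i : Group G] (B : Set (G → ℂ)), C G i B → Odd (numConj B) →
        ∀ d, Even (TOdd p O d B) := by
  constructor
  · intro h G _ B hB ho d
    have := (h1 G B hB).fin
    rw [TOdd_even (h1 G B hB).block ho, blkDef_parity, h G B hB d]
    exact dvd_zero _
  · intro h
    have hN : ∀ (j : ℕ) (G : Type) [i : Group G] (B : Set (G → ℂ)), C G i B →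
        C (WrN j G) inferInstance (WrSN j B) := by
      intro j
      induction j with
      | zero => exact fun G _ B h => h
      | succ j ih => exact fun G _ B h => ih (Wr G) (WrS B) (h2 G B h)
    have hodd : ∀ (G : Type) [i : Group G] (B : Set (G → ℂ)), C G i B → Odd (numConj B) →
        ∀ d, blkDef p O d B = 0 := by
      intro G _ B hB ho
      have hA := h1 G B hB
      have := hA.fin
      refine (bd_one hp2 hpO G B (hA.good hpO)).mpr fun j d => ?_
      have hAj := hA.wrN hp2 hpO j
      have := hAj.fin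
      have hoj : Odd (numConj (WrSN j B)) := by
        rw [numConj_WrSN hp2 hpO hA]
        exact ho
      rw [← TOdd_even hAj.block hoj]
      exact h _ _ (hN j G B hB) hoj d
    have key : ∀ n : ℕ, ∀ (G : Type) [i : Group G] (B : Set (G → ℂ)), C G i B →
        numConj B = n → ∀ d, blkDef p O d B = 0 := by
      intro n
      induction n using Nat.strong_induction_on with
      | _ n ih =>
        intro G _ B hB hn
        have hA := h1 G B hB
        have := hA.fin
        have := Fintype.ofFinite G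
        by_cases hinv : ∀ σ : ℂ ≃+* ℂ, gal σ (gal σ B) = B → gal σ B = B
        · exact hodd G B hB (odd_of_no_inv hA.block.irr hinv)
        · push Not at hinv
          obtain ⟨σ, e2, e1⟩ := hinv
          have hlt := numConj_lt hA.block.irr e2 e1
          rw [hn] at hlt
          have h4 := ih _ hlt (Wr G) (WrM B (gal σ B)) (h3 G B σ hB e1 e2) rfl
          have h5 := blkP_mix (p := p) hp2 hpO hA.block (gal_block σ hA.block) (Ne.symm e1)
          rw [blkP_gal σ hA.block] at h5
          have h6 : blkP p O (WrM B (gal σ B)) = 0 := by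
            ext d
            rw [blkP_coeff, h4 d]
            simp
          rw [h6] at h5
          have h7 : blkP p O B = 0 := by
            rcases mul_eq_zero.mp h5.symm with h | h <;> exact h
          intro d
          have h8 := blkP_coeff (p := p) (O := O) (B := B) d
          rw [h7] at h8
          simp only [Polynomial.coeff_zero] at h8
          exact_mod_cast h8.symm
    exact fun G _ B hB => key _ G B hB rfl

end main

end Pool.Agent.E8helper46.PD
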