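import Pool.Agent.E8helper46.PD.Mixs

/-!
# Blockwise alternating sums of mixed blocks
-/

set_option autoImplicit false
set_option linter.unusedSectionVars false

open scoped BigOperators Classical

noncomputable section

namespace Pool.Agent.E8helper46.PD

open Pool.Agent.Y63.KR Pool.Agent.Q259.BW Pool.Agent.H254R3.IN Pool.Agent.Q90.WR
open Pool.Agent.Q288.MB Polynomial
open Pool.Agent.Helper884.IC (Irr)

section recursion

variable {G : Type} [Group G] [Fintype G] {p : ℕ} [hp : Fact p.Prime]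
variable {R : Type} [CommRing R] [Algebra ℚ R]

/-- **the recursion for two functions of the stabilisers** -/
theorem wsumS_mix (hp2 : p ≠ 2) (f₁ f₂ : Subgroup G → R) (F : Subgroup (Wr G) → R)
    (hconj₁ : ∀ (b : G) (H : Subgroup G), f₁ (conjSub b H) = f₁ H)
    (hconj₂ : ∀ (b : G) (H : Subgroup G), f₂ (conjSub b H) = f₂ H)
    (hprod : ∀ H K : Subgroup G, F (prd H K) = f₁ H * f₂ K + f₂ H * f₁ K)
    (hwr : ∀ (b : G) (σ : Ch p G), F (twS b (chainStabilizer σ.1)) =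
      f₁ (chainStabilizer σ.1) * f₂ (chainStabilizer σ.1)) :
    wsumS p F = 2 * (wsumS p f₁ * wsumS p f₂) := by
  unfold wsumS
  rw [functional hp2 (fun H : Subgroup (Wr G) => (Nat.card H : R) * F H)]
  have e1 : ∀ H K : Subgroup G, (Nat.card (prd H K) : R) * F (prd H K) =
      ((Nat.card H : R) * f₁ H) * ((Nat.card K : R) * f₂ K) +
        ((Nat.card H : R) * f₂ H) * ((Nat.card K : R) * f₁ K) := by
    intro H K
    rw [hprod, Nat.card_congr (prdEquiv H K).toEquiv, Nat.card_prod]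
    push_cast
    ring
  have e2 : ∀ (b : G) (σ : Ch p G), (Nat.card (twS b (chainStabilizer σ.1)) : R) *
      F (twS b (chainStabilizer σ.1)) =
      2 * ((Nat.card (chainStabilizer σ.1) : R) ^ 2 *
        (f₁ (chainStabilizer σ.1) * f₂ (chainStabilizer σ.1))) := by
    intro b σ
    have e : twS b (chainStabilizer σ.1) ≃* Wr (chainStabilizer σ.1) :=
      (conjEquiv (⟨1, b, false⟩ : Wr G) (wrS (chainStabilizer σ.1))).symm.trans (wrSEquiv _)
    rw [Nat.card_congr e.toEquiv, Wr.card, ← hwr b σ]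
    push_cast
    ring
  have e4 : ∀ σ : Ch p G, ((Nat.card (chainStabilizer σ.1) : ℚ)⁻¹ • ∑ b : G,
      ((Nat.card (twS b (chainStabilizer σ.1)) : R) * F (twS b (chainStabilizer σ.1)) -
        (Nat.card (prd (chainStabilizer σ.1) (conjSub b (chainStabilizer σ.1))) : R) *
          F (prd (chainStabilizer σ.1) (conjSub b (chainStabilizer σ.1))))) = 0 := by
    intro σ
    rw [Finset.sum_eq_zero, smul_zero]
    intro b _
    rw [e2, e1, hconj₁, hconj₂, Nat.card_congr (conjEquiv b (chainStabilizer σ.1)).symm.toEquiv]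
    ring
  have e5 : (∑ σ : Ch p G, (-1 : R) ^ σ.1.ncard * ((Nat.card (chainStabilizer σ.1) : ℚ)⁻¹ • ∑ b : G,
      ((Nat.card (twS b (chainStabilizer σ.1)) : R) * F (twS b (chainStabilizer σ.1)) -
        (Nat.card (prd (chainStabilizer σ.1) (conjSub b (chainStabilizer σ.1))) : R) *
          F (prd (chainStabilizer σ.1) (conjSub b (chainStabilizer σ.1)))))) = 0 :=
    Finset.sum_eq_zero fun σ _ => by rw [e4, mul_zero]
  rw [e5, add_zero, Finset.sum_mul_sum]
  have e6 : ∀ σ τ : Ch p G, (-1 : R) ^ σ.1.ncard * ((-1 : R) ^ τ.1.ncard *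
      ((Nat.card (prd (chainStabilizer σ.1) (chainStabilizer τ.1)) : R) *
        F (prd (chainStabilizer σ.1) (chainStabilizer τ.1)))) =
      ((-1 : R) ^ σ.1.ncard * ((Nat.card (chainStabilizer σ.1) : R) * f₁ (chainStabilizer σ.1))) *
        ((-1 : R) ^ τ.1.ncard * ((Nat.card (chainStabilizer τ.1) : R) *
          f₂ (chainStabilizer τ.1))) +
      ((-1 : R) ^ τ.1.ncard * ((Nat.card (chainStabilizer τ.1) : R) * f₁ (chainStabilizer τ.1))) *
        ((-1 : R) ^ σ.1.ncard * ((Nat.card (chainStabilizer σ.1) : R) *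
          f₂ (chainStabilizer σ.1))) := by
    intro σ τ
    rw [e1]
    ring
  rw [Finset.sum_congr rfl fun σ _ => Finset.sum_congr rfl fun τ _ => e6 σ τ]
  simp_rw [Finset.sum_add_distrib]
  rw [two_mul]
  congr 1
  exact Finset.sum_comm

end recursion

section three

variable {G : Type} [Group G] [Fintype G] {p : ℕ} [hp : Fact p.Prime] {O : ValuationSubring ℂ}
  {B₁ B₂ : Set (G → ℂ)}

theorem bw_prdM (h2 : (2 : ℂ)⁻¹ ∈ O) (hB₁ : IsBlock O B₁) (hB₂ : IsBlock O B₂) (hne : B₁ ≠ B₂)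
    (H K : Subgroup G) :
    bw p O (WrM B₁ B₂) (prd H K) = bw p O B₁ H * bw p O B₂ K + bw p O B₂ H * bw p O B₁ K := by
  have := Fintype.ofFinite H
  have := Fintype.ofFinite K
  unfold bw
  rw [← apoly_box IndS_irr IndS_irr, ← apoly_box IndS_irr IndS_irr, ← apoly_union]
  · refine apoly_congr (prdEquiv H K) _ _ fun θ => ?_
    have h := IndS_prodM h2 hB₁ hB₂ hne H.subtype K.subtype (Subgroup.subtype_injective H)
      (Subgroup.subtype_injective K)
    have h3 : bxS (IndS O B₁ (Subtype.val : H → G)) (IndS O B₂ (Subtype.val : K → G)) ∪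
        bxS (IndS O B₂ (Subtype.val : H → G)) (IndS O B₁ (Subtype.val : K → G)) =
      IndS O (WrM B₁ B₂) (pmap (Subtype.val : H → G) (Subtype.val : K → G)) := h.symm
    rw [h3]
    refine IndS_congr (prdEquiv H K) (fun c => ?_) θ
    have : c.1 = pmap (Subtype.val : H → G) (Subtype.val : K → G) (prdEquiv H K c) := by
      obtain ⟨⟨a, b, s⟩, h1, h2, h3⟩ := c
      simp only at h1
      subst h1
      rfl
    rw [← this]
  · rintro _ ⟨θ, h1, ψ, h2, rfl⟩
    exact box_irr (IndS_irr _ h1) (IndS_irr _ h2)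
  · rintro _ ⟨θ, h1, ψ, h2, rfl⟩
    exact box_irr (IndS_irr _ h1) (IndS_irr _ h2)
  · exact bxS_disj IndS_irr IndS_irr IndS_irr IndS_irr (IndS_disj hB₁ hB₂ hne _)

theorem bw_twSM (hp2 : p ≠ 2) (h2 : (2 : ℂ)⁻¹ ∈ O) (hB₁ : IsBlock O B₁) (hB₂ : IsBlock O B₂)
    (hne : B₁ ≠ B₂) (b : G) (H : Subgroup G) :
    bw p O (WrM B₁ B₂) (twS b H) = bw p O B₁ H * bw p O B₂ H := by
  have := Fintype.ofFinite H
  unfold bw
  rw [← apoly_WrM hp2 IndS_irr IndS_irr (IndS_disj hB₁ hB₂ hne _)]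
  let e0 := conjEquiv (⟨1, b, false⟩ : Wr G) (wrS H)
  let e1 := wrSEquiv H
  let e : Wr H ≃* twS b H := e1.symm.trans e0
  symm
  refine apoly_congr e _ _ fun θ => ?_
  have h := IndS_wrM h2 hB₁ hB₂ hne H.subtype (Subgroup.subtype_injective _)
  have h3 : WrM (IndS O B₁ (Subtype.val : H → G)) (IndS O B₂ (Subtype.val : H → G)) =
    IndS O (WrM B₁ B₂) (wmap (Subtype.val : H → G)) := h.symm
  rw [h3]
  refine IndS_congr e (fun c => ?_) θ
  exact isConj_iff.mpr ⟨⟨1, b, false⟩, rfl⟩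

/-- **the alternating sums of the mixed block** -/
theorem blkP_mix (hp2 : p ≠ 2) (hpO : (p : ℂ) ∈ O.nonunits) (hB₁ : IsBlock O B₁)
    (hB₂ : IsBlock O B₂) (hne : B₁ ≠ B₂) :
    blkP p O (WrM B₁ B₂) = blkP p O B₁ * blkP p O B₂ := by
  have h2 := half_mem hp2 hpO
  have h := wsumS_mix (p := p) (G := G) hp2 (bw p O B₁) (bw p O B₂)
    (bw p O (WrM B₁ B₂)) bw_conj bw_conj (bw_prdM h2 hB₁ hB₂ hne)
    (fun b σ => bw_twSM hp2 h2 hB₁ hB₂ hne b _)
  have hne : (Nat.card G : ℚ) ≠ 0 := by exact_mod_cast (Nat.card_pos (α := G)).ne'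
  unfold blkP
  rw [h, Wr.card]
  simp only [smul_eq_C_mul]
  push_cast
  have h8 : C ((2 * (Nat.card G : ℚ) ^ 2)⁻¹) * (2 : ℚ[X]) =
      C (Nat.card G : ℚ)⁻¹ * C (Nat.card G : ℚ)⁻¹ := by
    rw [show (2 : ℚ[X]) = C 2 from rfl, ← C_mul, ← C_mul]
    congr 1
    field_simp
  linear_combination (wsumS p (bw p O B₁) * wsumS p (bw p O B₂)) * h8

/-- **the alternating sums of the mixed block, defect by defect** -/
theorem blkDef_mix (hp2 : p ≠ 2) (hpO : (p : ℂ) ∈ O.nonunits) (hB₁ : IsBlock O B₁)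
    (hB₂ : IsBlock O B₂) (hne : B₁ ≠ B₂) (d : ℕ) :
    blkDef p O d (WrM B₁ B₂) =
      ∑ t ∈ Finset.HasAntidiagonal.antidiagonal d, blkDef p O t.1 B₁ * blkDef p O t.2 B₂ := by
  have h := congrArg (fun P : ℚ[X] => P.coeff d) (blkP_mix (p := p) (G := G) hp2 hpO hB₁ hB₂ hne)
  simp only [coeff_mul, blkP_coeff] at h
  exact_mod_cast h

theorem blkAlt_mix (hp2 : p ≠ 2) (hpO : (p : ℂ) ∈ O.nonunits) (hB₁ : IsBlock O B₁)
    (hB₂ : IsBlock O B₂) (hne : B₁ ≠ B₂) :
    blkAlt p O (WrM B₁ B₂) = blkAlt p O B₁ * blkAlt p O B₂ := by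
  have h := congrArg (fun P : ℚ[X] => P.eval 1) (blkP_mix (p := p) (G := G) hp2 hpO hB₁ hB₂ hne)
  simp only [eval_mul, blkP_eval] at h
  exact_mod_cast h

end three

/-! ### Galois conjugates -/

section galois

variable {G : Type} [Group G] [Fintype G] {p : ℕ} [hp : Fact p.Prime] {O : ValuationSubring ℂ}
  {B : Set (G → ℂ)}

theorem IndS_gal (σ : ℂ ≃+* ℂ) (hB : IsBlock O B) (H : Subgroup G) :
    IndS O (gal σ B) (Subtype.val : H → G) = gal σ (IndS O B (Subtype.val : H → G)) := by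
  have := Fintype.ofFinite H
  obtain ⟨j, hj, hσ⟩ := exists_pow σ (N := Nat.card G) Nat.card_pos
  obtain ⟨χ₀, h0⟩ := hB.nonempty
  have i0 := hB.irr χ₀ h0
  have hB' := gal_block σ hB
  have h0' : (fun g => σ (χ₀ g)) ∈ gal σ B := ⟨χ₀, h0, rfl⟩
  have hH : Nat.card H ∣ Nat.card G := Subgroup.card_subgroup_dvd_card _
  have key : ∀ θ : H → ℂ, IsIrr θ → ∀ x : G, L (Subtype.val : H → G) (fun g => σ (θ g)) x =
      L (Subtype.val : H → G) θ (x ^ j) := by
    intro θ hθ x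
    have hg : ∀ g : H, g ^ Nat.card G = 1 := fun g =>
      Subtype.ext (by push_cast; exact pow_card_eq_one')
    unfold L
    simp only [hσ _ θ hθ _ (hg _), one_pow]
    congr 1
    refine Fintype.sum_equiv (pw hj hH) _ _ fun g => ?_
    have : IsConj x (g : G) ↔ IsConj (x ^ j) ((pw hj hH g : H) : G) := by
      rw [pw_apply, Subgroup.coe_pow]
      exact (isConj_pow hj dvd_rfl).symm
    simp only [this]
    rfl
  have hsurj : ∀ x : G, ∃ y : G, y ^ j = x := fun x => by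
    obtain ⟨y, hy⟩ := (pw hj (dvd_refl (Nat.card G))).surjective x
    exact ⟨y, hy⟩
  ext θ
  rw [mem_IndS hB' h0']
  constructor
  · rintro ⟨h1, h2⟩
    have hψ : IsIrr (fun g => σ.symm (θ g)) := irr_gal σ.symm h1
    refine ⟨fun g => σ.symm (θ g), (mem_IndS hB h0 _ _).mpr ⟨hψ, fun x => ?_⟩, ?_⟩
    · obtain ⟨y, rfl⟩ := hsurj x
      have h3 := h2 y
      have h4 : θ = fun g => σ ((fun g => σ.symm (θ g)) g) := by
        funext g
        simp
      rw [h4, key _ hψ, omega_gal hj dvd_rfl hσ i0] at h3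
      exact h3
    · funext g
      simp
  · rintro ⟨ψ, h1, rfl⟩
    rw [mem_IndS hB h0] at h1
    refine ⟨irr_gal σ h1.1, fun x => ?_⟩
    rw [key _ h1.1, omega_gal hj dvd_rfl hσ i0]
    exact h1.2 _

theorem anum_gal {K : Type} [Group K] (σ : ℂ ≃+* ℂ) (d : ℕ) (A : Set (K → ℂ)) :
    anum p d (gal σ A) = anum p d A := by
  unfold anum
  symm
  refine Nat.card_congr (Equiv.ofBijective
    (fun t => (⟨fun g => σ (t.1 g), ⟨t.1, t.2.1, rfl⟩, ?_⟩ : {θ : K → ℂ // θ ∈ gal σ A ∧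
      ∃ n : ℕ, θ 1 = (n : ℂ) ∧ n.factorization p + d = (Nat.card K).factorization p})) ⟨?_, ?_⟩)
  · obtain ⟨n, hn, h⟩ := t.2.2
    exact ⟨n, by change σ (t.1 1) = _; rw [hn, map_natCast], h⟩
  · rintro ⟨ψ, h1⟩ ⟨φ, h2⟩ h
    have h' : (fun g => σ (ψ g)) = fun g => σ (φ g) := congrArg Subtype.val h
    apply Subtype.ext
    funext g
    exact σ.injective (congrFun h' g)
  · rintro ⟨χ, ⟨ψ, h1, rfl⟩, n, hn, h⟩
    refine ⟨⟨ψ, h1, n, ?_, h⟩, rfl⟩
    have h1 : σ (ψ 1) = σ (n : ℂ) := by rw [map_natCast]; exact hn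
    exact σ.injective h1

theorem blkDef_gal (σ : ℂ ≃+* ℂ) (hB : IsBlock O B) (d : ℕ) :
    blkDef p O d (gal σ B) = blkDef p O d B := by
  unfold blkDef
  congr 1
  funext H
  rw [IndS_gal σ hB, anum_gal]

theorem blkAlt_gal (σ : ℂ ≃+* ℂ) (hB : IsBlock O B) : blkAlt p O (gal σ B) = blkAlt p O B := by
  unfold blkAlt
  congr 1
  funext H
  rw [IndS_gal σ hB, card_gal]

theorem blkP_gal (σ : ℂ ≃+* ℂ) (hB : IsBlock O B) : blkP p O (gal σ B) = blkP p O B := by
  ext d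
  rw [blkP_coeff, blkP_coeff, blkDef_gal σ hB]

end galois

end Pool.Agent.E8helper46.PD
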